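import Mathlib
import Pool.Agent.Q18.P.Laws

/-!
# Hilbert modular forms: the central order and Euler products on one sequence of windows

`g` is a Hilbert newform over the totally real field `K` as in the problem, `t_v` its Hecke eigenvalues at the places
`v ∉ S`, `S` a finite set containing the places of bad reduction, `x_v, x'_v` the roots of `X² - t_v X + q_v`; they have
the absolute value `√q_v` (Blasius), and `t_v` is real. We shift the variable of the problem by one: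
`F(s) = L^S(g, s - 1) = ∏_{v ∉ S} (1 - t_v q_v^{-s} + q_v^{1-2s})⁻¹`, so that the centre is `s = 1`; the missing
factors have no zeros and poles for `Re s > 1/2`. It is known (Hecke, Jacquet-Langlands) that `F` is entire and of
polynomial growth in vertical strips. Let

`P(y) = ∏_{v ∉ S, q_v ≤ y} (1 - t_v/q_v + 1/q_v)`, `P*(y) = exp (- ∑_{v ∉ S, q_v^k ≤ y} (x_v^k + x'_v^k) / (k q_v^k))`.

Fix `0 < δ < 1`; the windows are the intervals `[Y^(1-δ), Y]`. Without any unproved hypothesis we prove the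
equivalence of (a), (b) and (c); (b) for arbitrarily large `Y`, i.e. on one sequence of windows, as sparse as we like;
(c) for all large `Y`.

1. (a) the Riemann hypothesis for `L(g, s)` and `ord ≤ κ`; (b), (c) `∫ max (log P - κ log log y, 0) dy/y ≤ B log Y` for
   some `B`, over the window.
2. (a) the Riemann hypothesis and `ord = m`; (b), (c) `∫ |log P - m log log y| dy/y ≤ B log Y` for some `B`.
3. (a) the Riemann hypothesis, `ord = m`, and the leading coefficient of `F` is `A > 0`;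
   (b), (c) `∫ |log (A P*(y) / (e^γ log y)^m)| dy/y ≤ ε log Y` for every `ε > 0`.
4. (With the known parity theorems.) Let `r` be the dimension of the Bloch-Kato Selmer group for one `λ` for which
   `r ≡ ord (mod 2)`. Then the Riemann hypothesis together with `ord ≤ r` is equivalent to the one-sided bounds of 1. for
   ANY `κ` with `r ≤ κ < r + 2`. If `r ≤ 1`, this is the Bloch-Kato formula `ord = r` itself, for this `λ`.
5. If `ord = m`, with the leading coefficient `a`, and `A > |a|`, then there is a `β > 0` with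
   `∫ max (log (A P*(y) / (e^γ log y)^m), 0) dy/y > β log Y` over ALL windows with large `Y`.
-/

set_option autoImplicit false

namespace Pool.Agent.Results.MP_6e2fc3_nt.HilbertWindows

open Filter Topology Set Complex NumberField IsDedekindDomain MeasureTheory ComplexConjugate
open Pool.Agent.Q18.P (norm Holo NoZeros Order IsLeading MeanBound excess error ratio upTo)

variable {K : Type} [Field K] [NumberField K]

/-- The Satake parameters of `g` (up to the normalisation): `x v 0`, `x v 1` are the roots of `X² - t_v X + q_v`, of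
absolute value `√q_v`; `t_v` is real. -/
structure Satake (S : Finset (HeightOneSpectrum (𝓞 K))) (t : HeightOneSpectrum (𝓞 K) → ℝ)
    (x : HeightOneSpectrum (𝓞 K) → Fin 2 → ℂ) : Prop where
  add : ∀ v, v ∉ S → x v 0 + x v 1 = t v
  mul : ∀ v, v ∉ S → x v 0 * x v 1 = norm v
  abs : ∀ v, v ∉ S → ∀ j, ‖x v j‖ = √(norm v : ℝ)

/-- `F` is holomorphic, of polynomial growth in a half plane `Re s > 1 - η`, and for `Re s > 3/2` it is the Euler
product over the places outside of `S`. -/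
structure IsL (S : Finset (HeightOneSpectrum (𝓞 K))) (t : HeightOneSpectrum (𝓞 K) → ℝ) (F : ℂ → ℂ) : Prop where
  holo : Holo 1 F
  euler : ∀ s : ℂ, 3 / 2 < s.re → HasProd (fun v : {v : HeightOneSpectrum (𝓞 K) // v ∉ S} =>
    (1 - t v.1 * (norm v.1 : ℂ) ^ (-s) + (norm v.1 : ℂ) ^ (1 - 2 * s))⁻¹) (F s)

/-- `P(y) = ∏_{v ∉ S, q_v ≤ y} (1 - t_v/q_v + 1/q_v)` -/
noncomputable def product (S : Finset (HeightOneSpectrum (𝓞 K))) (t : HeightOneSpectrum (𝓞 K) → ℝ) (y : ℝ) : ℝ :=
  ∏ᶠ v ∈ upTo S y, (1 - t v / (norm v : ℝ) + 1 / (norm v : ℝ))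

/-- `P*(y) = exp (- ∑_{v ∉ S, q_v^k ≤ y} (x_v^k + x'_v^k) / (k q_v^k))`, `k = p.2 + 1` -/
noncomputable def productStar (S : Finset (HeightOneSpectrum (𝓞 K))) (x : HeightOneSpectrum (𝓞 K) → Fin 2 → ℂ)
    (y : ℝ) : ℝ :=
  Real.exp (-∑ᶠ (p : {v : HeightOneSpectrum (𝓞 K) // v ∉ S} × ℕ) (_ : (norm p.1.1 : ℝ) ^ (p.2 + 1) ≤ y),
    (x p.1.1 0 ^ (p.2 + 1) + x p.1.1 1 ^ (p.2 + 1)).re / (((p.2 : ℝ) + 1) * (norm p.1.1 : ℝ) ^ (p.2 + 1)))

/-! ### translation -/

variable {S : Finset (HeightOneSpectrum (𝓞 K))} {t : HeightOneSpectrum (𝓞 K) → ℝ}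
  {x : HeightOneSpectrum (𝓞 K) → Fin 2 → ℂ} {F : ℂ → ℂ}

theorem one_c : (1 : ℝ) = (((1 : ℕ) : ℝ) + 1) / 2 := by norm_num

theorem two_le (v : HeightOneSpectrum (𝓞 K)) : (2 : ℝ) ≤ norm v := by
  exact_mod_cast Pool.Agent.H921R2.TatePole.two_le_nm v

/-- real roots or conjugate roots: the power sums are real -/
theorem conj_sum (h : Satake S t x) {v : HeightOneSpectrum (𝓞 K)} (hv : v ∉ S) (k : ℕ) :
    (x v 0 ^ k + x v 1 ^ k).im = 0 := by
  induction k using Nat.strong_induction_on with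
  | _ k ih =>
    match k with
    | 0 => simp
    | 1 => rw [pow_one, pow_one, h.add v hv, Complex.ofReal_im]
    | k + 2 =>
      have h1 : x v 0 ^ (k + 2) + x v 1 ^ (k + 2) =
          (x v 0 + x v 1) * (x v 0 ^ (k + 1) + x v 1 ^ (k + 1)) - (x v 0 * x v 1) * (x v 0 ^ k + x v 1 ^ k) := by ring
      rw [h1, h.add v hv, h.mul v hv, Complex.sub_im, Complex.im_ofReal_mul, ih (k + 1) (by omega), show ((norm v : ℕ) : ℂ) = ((norm v : ℝ) : ℂ) by push_cast; rfl,
        Complex.im_ofReal_mul, ih k (by omega)]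
      ring

theorem pure (h : Satake S t x) : Pool.Agent.Q18.P.Pure 1 S x where
  le := fun v hv j => by
    rw [h.abs v hv j, Real.sqrt_eq_rpow]
    simp
  real := fun v hv k => by
    rw [Fin.sum_univ_two]
    exact conj_sum h hv k

theorem factor_eq (h : Satake S t x) {v : HeightOneSpectrum (𝓞 K)} (hv : v ∉ S) (s : ℂ) :
    1 - t v * (norm v : ℂ) ^ (-s) + (norm v : ℂ) ^ (1 - 2 * s) = ∏ j, (1 - x v j * (norm v : ℂ) ^ (-s)) := by
  have hn : (norm v : ℂ) ≠ 0 := by
    have := two_le v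
    have h2 : (norm v : ℝ) ≠ 0 := by linarith
    exact_mod_cast h2
  have h1 : (norm v : ℂ) ^ (1 - 2 * s) = (x v 0 * x v 1) * ((norm v : ℂ) ^ (-s)) ^ 2 := by
    rw [h.mul v hv, ← Complex.cpow_nat_mul, show 1 - 2 * s = 1 + ((2 : ℕ) : ℂ) * (-s) by push_cast; ring,
      Complex.cpow_add _ _ hn, Complex.cpow_one]
  rw [Fin.prod_univ_two, h1, ← h.add v hv]
  ring

theorem product_eq (h : Satake S t x) : product S t = Pool.Agent.Q18.P.product 1 S x := by
  funext y
  unfold product Pool.Agent.Q18.P.product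
  refine finprod_mem_congr rfl fun v hv => ?_
  have hn := two_le v
  have hn0 : (norm v : ℝ) ≠ 0 := by linarith
  have h2 := factor_eq h hv.1 1
  have e1 : (1 : ℂ) - t v * (norm v : ℂ) ^ (-(1 : ℂ)) + (norm v : ℂ) ^ (1 - 2 * (1 : ℂ)) =
      ((1 - t v / (norm v : ℝ) + 1 / (norm v : ℝ) : ℝ) : ℂ) := by
    rw [show (1 : ℂ) - 2 * 1 = -1 by norm_num, Complex.cpow_neg_one]
    push_cast
    ring
  rw [e1] at h2
  have e2 : ∏ j, (1 - x v j * (norm v : ℂ) ^ (-((1 : ℝ) : ℂ))) = ((1 - t v / (norm v : ℝ) + 1 / (norm v : ℝ) : ℝ) : ℂ) := by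
    rw [h2, Complex.ofReal_one]
  rw [e2, Complex.norm_real, Real.norm_of_nonneg]
  have h3 : |t v| ≤ 2 * √(norm v : ℝ) := by
    have h4 : ‖x v 0 + x v 1‖ ≤ ‖x v 0‖ + ‖x v 1‖ := norm_add_le _ _
    rw [h.add v hv.1, h.abs v hv.1 0, h.abs v hv.1 1, Complex.norm_real, Real.norm_eq_abs] at h4
    linarith
  have h5 : √(norm v : ℝ) ^ 2 = norm v := Real.sq_sqrt (by linarith)
  have h6 : 0 ≤ (√(norm v : ℝ) - 1) ^ 2 := sq_nonneg _
  have h7 := (abs_le.1 h3).2
  have h8 : 1 - t v / (norm v : ℝ) + 1 / (norm v : ℝ) = (norm v - t v + 1) / norm v := by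
    field_simp
  rw [h8]
  refine div_nonneg ?_ (by linarith)
  nlinarith

theorem star_eq : productStar S x = Pool.Agent.Q18.P.productStar 1 S x := by
  funext y
  unfold productStar Pool.Agent.Q18.P.productStar
  congr 2
  refine finsum_congr fun p => finsum_congr fun _ => ?_
  rw [Fin.sum_univ_two, Real.rpow_one]

/-- **Hilbert newforms: the central order, the leading coefficient and the Riemann hypothesis from Euler products on one
sequence of windows.** -/
theorem result (K : Type) [Field K] [NumberField K] (S : Finset (HeightOneSpectrum (𝓞 K)))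
    (t : HeightOneSpectrum (𝓞 K) → ℝ) (x : HeightOneSpectrum (𝓞 K) → Fin 2 → ℂ) (hx : Satake S t x)
    (F : ℂ → ℂ) (hF : IsL S t F) (δ : ℝ) (h0 : 0 < δ) (h1 : δ < 1) :
    -- (1) upper bounds for the order
    (∀ κ : ℝ, List.TFAE [
      NoZeros 1 F ∧ ∃ m : ℤ, Order 1 F m ∧ (m : ℝ) ≤ κ,
      ∃ B : ℝ, ∃ᶠ Y : ℝ in atTop, MeanBound δ (excess (product S t) κ) B Y,
      ∃ B : ℝ, ∀ᶠ Y : ℝ in atTop, MeanBound δ (excess (product S t) κ) B Y]) ∧
    -- (2) the order
    (∀ m : ℤ, List.TFAE [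
      NoZeros 1 F ∧ Order 1 F m,
      ∃ B : ℝ, ∃ᶠ Y : ℝ in atTop, MeanBound δ (error (product S t) m) B Y,
      ∃ B : ℝ, ∀ᶠ Y : ℝ in atTop, MeanBound δ (error (product S t) m) B Y]) ∧
    -- (3) the order and the leading coefficient
    (∀ (m : ℤ) (A : ℝ), 0 < A → List.TFAE [
      NoZeros 1 F ∧ IsLeading 1 F m A,
      ∀ ε : ℝ, 0 < ε → ∃ᶠ Y : ℝ in atTop, MeanBound δ (fun y => |ratio (productStar S x) A m y|) ε Y,
      ∀ ε : ℝ, 0 < ε → ∀ᶠ Y : ℝ in atTop, MeanBound δ (fun y => |ratio (productStar S x) A m y|) ε Y]) ∧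
    -- (4) with the parity theorems
    (∀ r : ℤ, (∀ m : ℤ, Order 1 F m → 2 ∣ m - r) → ∀ κ : ℝ, r ≤ κ → κ < r + 2 →
      List.TFAE [
        NoZeros 1 F ∧ ∃ m : ℤ, Order 1 F m ∧ m ≤ r,
        ∃ B : ℝ, ∃ᶠ Y : ℝ in atTop, MeanBound δ (excess (product S t) κ) B Y,
        ∃ B : ℝ, ∀ᶠ Y : ℝ in atTop, MeanBound δ (excess (product S t) κ) B Y] ∧
      ((0 ≤ r ∧ r ≤ 1) → ∀ m : ℤ, Order 1 F m → m ≤ r → m = r)) ∧
    -- (5) in every window
    (∀ (m : ℤ) (a : ℂ), IsLeading 1 F m a → ∀ A : ℝ, ‖a‖ < A → ∃ β : ℝ, 0 < β ∧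
      ∀ᶠ Y : ℝ in atTop, ¬ MeanBound δ (fun y => max (ratio (productStar S x) A m y) 0) β Y) := by
  have hE : Pool.Agent.Q18.P.Euler 1 S x F := by
    intro s hs
    refine (hF.euler s (by linarith)).congr_fun fun v => ?_
    rw [factor_eq hx v.2]
  have hP := pure hx
  have L := Pool.Agent.Q18.P.laws one_c hP.le hF.holo hE h0 h1
  rw [product_eq hx, star_eq]
  refine ⟨L.upper, L.order, fun m A hA => Pool.Agent.Q18.P.Laws.lead_real one_c hP hF.holo hE h0 h1 m hA,
    fun r hp κ h2 h3 => ⟨L.parity hp h2 h3, fun hr m hm hmr => ?_⟩, L.omega⟩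
  have h4 := hp m hm
  have h5 := Pool.Agent.Q18.P.order_nonneg hF.holo hm
  omega

end Pool.Agent.Results.MP_6e2fc3_nt.HilbertWindows
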