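import Mathlib
import Pool.Agent.Q190.RV.Pure

/-!
# Hilbert newforms: the Bloch-Kato formula and ratios of Euler products at the centre

`g` is a Hilbert newform over the totally real field `K` as in the problem, `t_v` its Hecke eigenvalues at the places
`v ∉ S`, `S` a finite set of finite places containing the places of bad reduction, `x_v, x'_v` the roots of
`X² - t_v X + q_v`; `t_v` is real, and the roots have the absolute value `√q_v` (Blasius). We shift the variable of the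
problem by one: `F(s) = L^S(g, s - 1) = ∏_{v ∉ S} (1 - t_v q_v^{-s} + q_v^{1-2s})⁻¹`, so that the centre is `s = 1`; the
missing factors have no zeros and poles for `Re s > 1/2`. It is known (Hecke, Jacquet-Langlands) that `F` is entire and
of polynomial growth in vertical strips. Let

`P(y) = ∏_{v ∉ S, q_v ≤ y} (1 - t_v / q_v + 1 / q_v)`

(for the weights `(2, …, 2)` and rational eigenvalues this is the product of the numbers `#E(k_v) / q_v`), and let `m`
be the order of `F` at the centre. Nothing is supposed about the zeros of `F`. Inequalities are supposed for all large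
`y`.

1. If `P(y^l) ≤ Q P(y)` for ONE exponent `l > 1`, then the Riemann hypothesis holds for `g`, and `l^m ≤ Q`.
2. If also `q P(y) ≤ P(y^l)`, `q > 0`, then `q ≤ l^m ≤ Q`.
3. If `P(y^l) / P(y)` converges to `c` for one `l > 1`, then the Riemann hypothesis holds for `g`, and `c = l^m`.
4. For every real `κ` the bounds `a (log y)^κ ≤ P(y) ≤ b (log y)^κ`, `a > 0`, hold if and only if `κ = m` and `P` is
   regular: for all `l` in some set of positive outer measure in `(1, ∞)` there is a `Q(l)` with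
   `P(y^l) ≤ Q(l) P(y)`. The regularity of `P` implies the Riemann hypothesis for `g` and two-sided bounds
   `a P(y) ≤ P(y^l) ≤ b P(y)` for all `l > 0`.
5. Let `r λ` be the dimensions of the Bloch-Kato Selmer groups, for the `λ` in some set `A` for which the parity
   theorem `r λ ≡ m (mod 2)` is known. If `P(y^l) ≤ Q P(y)` for one `l > 1` and one `Q < l²`, then the Riemann
   hypothesis holds for `g`, `m ≤ 1`, `m` is determined by the parity of any one `r λ`, and for ALL `λ ∈ A` the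
   Bloch-Kato formula `m = r λ` is equivalent to `r λ ≤ 1`. For a general `λ ∈ A` and `Q < l^(r λ + 2)` one has
   `m ≤ r λ`, and, if moreover `q P(y) ≤ P(y^l)` with `q > l^(r λ - 2)`, then `m = r λ`.
-/

set_option autoImplicit false

namespace Pool.Agent.Results.MP_6e2fc3_nt.OneExponentHilbert

open Filter Topology Set Complex NumberField IsDedekindDomain MeasureTheory

variable {K : Type} [Field K] [NumberField K]

/-- `q_v` -/
noncomputable def norm (v : HeightOneSpectrum (𝓞 K)) : ℕ := Ideal.absNorm v.asIdeal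

/-- The Satake parameters of `g` (up to the normalisation): `x v 0`, `x v 1` are the roots of `X² - t_v X + q_v`, of
absolute value `√q_v`; `t_v` is real. -/
structure Satake (S : Finset (HeightOneSpectrum (𝓞 K))) (t : HeightOneSpectrum (𝓞 K) → ℝ)
    (x : HeightOneSpectrum (𝓞 K) → Fin 2 → ℂ) : Prop where
  add : ∀ v, v ∉ S → x v 0 + x v 1 = t v
  mul : ∀ v, v ∉ S → x v 0 * x v 1 = norm v
  abs : ∀ v, v ∉ S → ∀ j, ‖x v j‖ = √(norm v : ℝ)

/-- `F` is holomorphic, of polynomial growth in a half plane `Re s > 1 - η`, and for `Re s > 3/2` it is the Euler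
product over the places outside of `S`. -/
structure IsL (S : Finset (HeightOneSpectrum (𝓞 K))) (t : HeightOneSpectrum (𝓞 K) → ℝ) (F : ℂ → ℂ) : Prop where
  holo : ∃ (η C : ℝ) (k : ℕ), 0 < η ∧ ∀ s : ℂ, 1 - η < s.re → DifferentiableAt ℂ F s ∧ ‖F s‖ ≤ C * (1 + ‖s‖) ^ k
  euler : ∀ s : ℂ, 3 / 2 < s.re → HasProd (fun v : {v : HeightOneSpectrum (𝓞 K) // v ∉ S} =>
    (1 - t v.1 * (norm v.1 : ℂ) ^ (-s) + (norm v.1 : ℂ) ^ (1 - 2 * s))⁻¹) (F s)

/-- `P(y) = ∏_{v ∉ S, q_v ≤ y} (1 - t_v/q_v + 1/q_v)` -/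
noncomputable def product (S : Finset (HeightOneSpectrum (𝓞 K))) (t : HeightOneSpectrum (𝓞 K) → ℝ) (y : ℝ) : ℝ :=
  ∏ᶠ v ∈ {v : HeightOneSpectrum (𝓞 K) | v ∉ S ∧ (norm v : ℝ) ≤ y}, (1 - t v / (norm v : ℝ) + 1 / (norm v : ℝ))

/-- the order of `F` at the centre `1` is `m` -/
def CentralOrder (F : ℂ → ℂ) (m : ℕ) : Prop := analyticOrderAt F 1 = m

/-- the Riemann hypothesis: `F` has no zeros with `Re s > 1` -/
def NoZeros (F : ℂ → ℂ) : Prop := ∀ s : ℂ, 1 < s.re → F s ≠ 0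

/-- `P(y^l) ≤ Q P(y)` for all large `y` -/
def Upper (P : ℝ → ℝ) (l Q : ℝ) : Prop := ∀ᶠ y : ℝ in atTop, P (y ^ l) ≤ Q * P y

/-- `q P(y) ≤ P(y^l)` for all large `y` -/
def Lower (P : ℝ → ℝ) (l q : ℝ) : Prop := ∀ᶠ y : ℝ in atTop, q * P y ≤ P (y ^ l)

/-- `P(y) ≍ (log y)^κ` -/
def OfOrder (P : ℝ → ℝ) (κ : ℝ) : Prop :=
  ∃ a b : ℝ, 0 < a ∧ ∀ᶠ y : ℝ in atTop, a * Real.log y ^ κ ≤ P y ∧ P y ≤ b * Real.log y ^ κ

/-- There is a set `Λ ⊆ (1, ∞)` of positive (outer) Lebesgue measure such that for every `l ∈ Λ` there is a `Q` with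
`P(y^l) ≤ Q P(y)` for all large `y`. -/
def Regular (P : ℝ → ℝ) : Prop :=
  ∃ Λ : Set ℝ, Λ ⊆ Ioi 1 ∧ volume Λ ≠ 0 ∧ ∀ l ∈ Λ, ∃ Q : ℝ, Upper P l Q

/-! ### translation -/

variable {S : Finset (HeightOneSpectrum (𝓞 K))} {t : HeightOneSpectrum (𝓞 K) → ℝ}
  {x : HeightOneSpectrum (𝓞 K) → Fin 2 → ℂ} {F : ℂ → ℂ}

theorem one_c : (1 : ℝ) = (((1 : ℕ) : ℝ) + 1) / 2 := by norm_num

theorem two_le (v : HeightOneSpectrum (𝓞 K)) : (2 : ℝ) ≤ norm v := by
  exact_mod_cast Pool.Agent.H921R2.TatePole.two_le_nm v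

theorem factor_eq (h : Satake S t x) {v : HeightOneSpectrum (𝓞 K)} (hv : v ∉ S) (s : ℂ) :
    1 - t v * (norm v : ℂ) ^ (-s) + (norm v : ℂ) ^ (1 - 2 * s) = ∏ j, (1 - x v j * (norm v : ℂ) ^ (-s)) := by
  have hn : (norm v : ℂ) ≠ 0 := by
    have := two_le v
    have h2 : (norm v : ℝ) ≠ 0 := by linarith
    exact_mod_cast h2
  have h1 : (norm v : ℂ) ^ (1 - 2 * s) = (x v 0 * x v 1) * ((norm v : ℂ) ^ (-s)) ^ 2 := by
    rw [h.mul v hv, ← Complex.cpow_nat_mul, show 1 - 2 * s = 1 + ((2 : ℕ) : ℂ) * (-s) by push_cast; ring,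
      Complex.cpow_add _ _ hn, Complex.cpow_one]
  rw [Fin.prod_univ_two, h1, ← h.add v hv]
  ring

theorem product_eq (h : Satake S t x) : product S t = Pool.Agent.Q18.P.product 1 S x := by
  funext y
  unfold product Pool.Agent.Q18.P.product
  refine finprod_mem_congr rfl fun v hv => ?_
  have hn := two_le v
  have hn0 : (norm v : ℝ) ≠ 0 := by linarith
  have h2 := factor_eq h hv.1 1
  have e1 : (1 : ℂ) - t v * (norm v : ℂ) ^ (-(1 : ℂ)) + (norm v : ℂ) ^ (1 - 2 * (1 : ℂ)) =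
      ((1 - t v / (norm v : ℝ) + 1 / (norm v : ℝ) : ℝ) : ℂ) := by
    rw [show (1 : ℂ) - 2 * 1 = -1 by norm_num, Complex.cpow_neg_one]
    push_cast
    ring
  rw [e1] at h2
  have e2 : ∏ j, (1 - x v j * (norm v : ℂ) ^ (-((1 : ℝ) : ℂ))) = ((1 - t v / (norm v : ℝ) + 1 / (norm v : ℝ) : ℝ) : ℂ) := by
    rw [h2, Complex.ofReal_one]
  have e3 : ∏ j, (1 - x v j * (Pool.Agent.Q18.P.norm v : ℂ) ^ (-((1 : ℝ) : ℂ))) =
      ((1 - t v / (norm v : ℝ) + 1 / (norm v : ℝ) : ℝ) : ℂ) := e2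
  rw [e3, Complex.norm_real, Real.norm_of_nonneg]
  have h3 : |t v| ≤ 2 * √(norm v : ℝ) := by
    have h4 : ‖x v 0 + x v 1‖ ≤ ‖x v 0‖ + ‖x v 1‖ := norm_add_le _ _
    rw [h.add v hv.1, h.abs v hv.1 0, h.abs v hv.1 1, Complex.norm_real, Real.norm_eq_abs] at h4
    linarith
  have h5 : √(norm v : ℝ) ^ 2 = norm v := Real.sq_sqrt (by linarith)
  have h6 : 0 ≤ (√(norm v : ℝ) - 1) ^ 2 := sq_nonneg _
  have h7 := (abs_le.1 h3).2
  have h8 : 1 - t v / (norm v : ℝ) + 1 / (norm v : ℝ) = (norm v - t v + 1) / norm v := by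
    field_simp
  rw [h8]
  refine div_nonneg ?_ (by linarith)
  nlinarith

/-- **Hilbert newforms: the central order and ratios of Euler products.** -/
theorem result (K : Type) [Field K] [NumberField K] (S : Finset (HeightOneSpectrum (𝓞 K)))
    (t : HeightOneSpectrum (𝓞 K) → ℝ) (x : HeightOneSpectrum (𝓞 K) → Fin 2 → ℂ) (hx : Satake S t x)
    (F : ℂ → ℂ) (hF : IsL S t F) :
    ∃ m : ℕ, CentralOrder F m ∧
      -- (1) one exponent, one-sided
      (∀ l Q : ℝ, 1 < l → Upper (product S t) l Q → NoZeros F ∧ l ^ m ≤ Q) ∧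
      -- (2) one exponent, two-sided
      (∀ l q Q : ℝ, 1 < l → 0 < q → Lower (product S t) l q → Upper (product S t) l Q →
        NoZeros F ∧ q ≤ l ^ m ∧ l ^ m ≤ Q) ∧
      -- (3) convergence of the ratio
      (∀ l c : ℝ, 1 < l → Tendsto (fun y : ℝ => product S t (y ^ l) / product S t y) atTop (𝓝 c) →
        NoZeros F ∧ c = l ^ m) ∧
      -- (4) the order of magnitude
      (∀ κ : ℝ, OfOrder (product S t) κ ↔ κ = m ∧ Regular (product S t)) ∧
      (Regular (product S t) → NoZeros F ∧ ∀ l : ℝ, 0 < l → ∃ a b : ℝ, 0 < a ∧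
        Lower (product S t) l a ∧ Upper (product S t) l b) ∧
      -- (5) with the parity theorems
      ∀ (I : Type) (A : Set I) (r : I → ℕ), (∀ i ∈ A, (2 : ℤ) ∣ m - r i) →
        (∀ l Q : ℝ, 1 < l → Q < l ^ 2 → Upper (product S t) l Q →
          NoZeros F ∧ m ≤ 1 ∧ ∀ i ∈ A, m = r i % 2 ∧ (m = r i ↔ r i ≤ 1)) ∧
        ∀ i ∈ A, ∀ l Q : ℝ, 1 < l → Q < l ^ (r i + 2) → Upper (product S t) l Q →
          NoZeros F ∧ m ≤ r i ∧ ∀ q : ℝ, l ^ r i < l ^ 2 * q → Lower (product S t) l q → m = r i := by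
  have hb : Pool.Agent.Q18.P.Bdd 1 S x := by
    intro v hv j
    rw [hx.abs v hv j, Real.sqrt_eq_rpow]
    simp
    rfl
  have hH : Pool.Agent.Q190.RV.Holo 1 S x F := by
    refine ⟨hF.holo, fun s hs => ?_⟩
    refine (hF.euler s (by linarith)).congr_fun fun v => ?_
    rw [factor_eq hx v.2]
    rfl
  obtain ⟨m, hm⟩ := hH.order_finite' one_c hb
  have hm' : CentralOrder F m := by
    unfold CentralOrder
    rw [← hm]
    push_cast
    rfl
  obtain ⟨o1, o2⟩ := Pool.Agent.Q190.RV.order_law one_c hb hH hm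
  rw [← product_eq hx] at o1 o2
  have u1 : ∀ l Q : ℝ, 1 < l → Upper (product S t) l Q → NoZeros F ∧ l ^ m ≤ Q := by
    intro l Q hl h
    unfold Upper at h
    rw [product_eq hx] at h
    exact Pool.Agent.Q190.RV.one_upper one_c hb hH hm hl h
  have u2 : ∀ l q : ℝ, 1 < l → 0 < q → NoZeros F → Lower (product S t) l q → q ≤ l ^ m := by
    intro l q hl hq hz h
    unfold Lower at h
    rw [product_eq hx] at h
    exact Pool.Agent.Q190.RV.one_lower one_c hb hH hm hz hl hq h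
  refine ⟨m, hm', u1, fun l q Q hl hq h2 h3 => ?_, fun l c hl h => ?_, o1, ?_,
    fun I A r hr => ⟨fun l Q hl hQ h => ?_, fun i hi l Q hl hQ h => ?_⟩⟩
  · obtain ⟨a1, a2⟩ := u1 l Q hl h3
    exact ⟨a1, u2 l q hl hq a1 h2, a2⟩
  · rw [product_eq hx] at h
    exact Pool.Agent.Q190.RV.one_limit one_c hb hH hm hl h
  · intro h
    obtain ⟨a1, a2⟩ := o2 h
    refine ⟨a1, fun l hl => ?_⟩
    obtain ⟨a, b, ha, hab⟩ := a2 l hl
    exact ⟨a, b, ha, hab.mono fun y hy => hy.1, hab.mono fun y hy => hy.2⟩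
  · obtain ⟨a1, a2⟩ := u1 l Q hl h
    have hlt : m < 2 := (pow_lt_pow_iff_right₀ hl).1 (lt_of_le_of_lt a2 hQ)
    refine ⟨a1, by omega, fun i hi => ?_⟩
    have := hr i hi
    omega
  · obtain ⟨a1, a2⟩ := u1 l Q hl h
    have hlt : m < r i + 2 := (pow_lt_pow_iff_right₀ hl).1 (lt_of_le_of_lt a2 hQ)
    have h1 := hr i hi
    have hle : m ≤ r i := by omega
    refine ⟨a1, hle, fun q hq h2 => ?_⟩
    have hq0 : 0 < q := by
      have h3 : 0 < l ^ 2 * q := lt_trans (pow_pos (by linarith) (r i)) hq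
      exact (pos_iff_pos_of_mul_pos h3).1 (pow_pos (by linarith) 2)
    have h3 := u2 l q hl hq0 a1 h2
    have h4 : l ^ r i < l ^ (m + 2) := by
      rw [pow_add, mul_comm (l ^ m)]
      exact lt_of_lt_of_le hq (mul_le_mul_of_nonneg_left h3 (pow_nonneg (by linarith) 2))
    have h5 : r i < m + 2 := (pow_lt_pow_iff_right₀ hl).1 h4
    omega

end Pool.Agent.Results.MP_6e2fc3_nt.OneExponentHilbert
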