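import Pool.Agent.Q6.NW.TwF
import Pool.Agent.Q6.NW.Count

/-!
# The Bloch-Kato formula in rank zero for a positive proportion of base changes of newforms

`f_1, …, f_m` are newforms of weight two and levels `N_1, …, N_m` with trivial character, with arbitrary
(real algebraic) Fourier coefficients.  `G` is a finite group of Dirichlet characters of squarefree
conductors prime to the `N_i`, and `K` the abelian number field attached to it (any abelian number field
which is tamely ramified and in which the primes dividing the `N_i` are unramified).  We assume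
`L(f_i/K, 1) ≠ 0`, that is `L(f_i ⊗ ψ, 1) ≠ 0` for all `ψ ∈ G` and all `i`.  `l` is a prime and `λ` a
prime ideal of the ring of all algebraic integers, `l ∈ λ`.  A prime `q` is admissible if `q` does not
divide the `N_i` and the conductor of `K`, and `a_q(f_i) - ψ(q) - ψ(q)⁻¹ ∉ λ` for all `i` and all
`ψ ∈ G`.  `H` is a group of Dirichlet characters of order dividing `l ^ n` and of squarefree conductors
composed of admissible primes; it may be finite or infinite.  A tuple `(χ_1, …, χ_r)` of elements of `H`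
is good if for all number fields `F` contained in the compositum of `K` and of the abelian field attached
to the group generated by the `χ_j`, and for all `i`, the `L`-function `L(f_i/F, s)` (the Euler product of
`f_i` over the finite places of `F`) is entire and does not vanish at `s = 1`.

Theorem: there is a number `V` which depends only on the newforms, on `K`, `λ`, `l ^ n` and `r`, but not
on `H`, such that

* there is a set of at most `2 ^ V` tuples such that every tuple becomes good after multiplication by one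
  of them;
* if `H` is finite, then the proportion of the good tuples among all `|H| ^ r` tuples is at least
  `2 ^ (-V)`;
* if `H` is infinite, then there is a `B` such that for all `X` the number of the good tuples of characters
  of conductors at most `B X` is at least `2 ^ (-V)` times the number of all tuples of characters of
  conductors at most `X`.

The conclusion for the problem: if `K` is totally real and `l` is odd, or `H` consists of even characters,
then the fields `F` are totally real and abelian over `ℚ`, and `L(f_i/F, s)` is the `L`-function of the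
base change `g` of `f_i` to `F`, a Hilbert modular newform of parallel weight two with trivial central
character (with `s = 1` instead of `s = 0`; for the fields in question the levels `N_i` are prime to the
discriminant).  `L(g, s) ≠ 0` at the centre implies `H^1_f(F, V_{g, λ'}) = 0` for all `λ'`, by Kato's
theorem for the twists of `f_i` by the characters of `Gal(F/ℚ)`; so the formula holds for all these `g` and
all `λ'`.  So if the formula holds in rank zero for the base changes of the `f_i` to `K`, then for a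
positive proportion of the totally real extensions `KF` of `K` with `r` generators as above it holds
simultaneously for the base changes of all the `f_i` to all the subfields of `KF`.

For `K = ℚ` and rational coefficients see `Pool.Agent.Results.MP_6dc9d1_nt.ProportionOfTuples`; here the
coefficients and the base field are arbitrary, the condition on `q` is the one at one prime ideal above `l`,
and the tuples are also counted by conductors for infinite `H`.

The proof: the sums of the modular symbols of the twists by `ψ χ`, multiplied by units modulo a prime ideal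
`P ∣ l` of a ring `R` which is finite over `ℤ`, are the values of a combination of characters of `H` with
coefficients in a finite `R`-module `W` (`Pool.Agent.Q6.NW.goodT`), and so are the products of these sums
over all the elements `ψ ∏ χ_j ^ (J_j)`, as functions of the tuple.  Iterated differences of such a
function are divisible by powers of `P`.  By Krull's intersection theorem the value at the origin is not in
`P ^ (V + 1) W` for some `V`, and this implies that the function is not zero on every translate of the set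
of the partial products of some `V` tuples.
-/

set_option autoImplicit false

open Complex UpperHalfPlane MatrixGroups CongruenceSubgroup NumberField IsDedekindDomain

namespace Pool.Agent.Results.MP_6e2fc3_nt.ProportionOfBaseChanges

/-- The `n`-th Fourier coefficient of `f`. -/
noncomputable def coef {N : ℕ} (f : CuspForm (Gamma0 N : Subgroup (GL (Fin 2) ℝ)) 2) (n : ℕ) : ℂ :=
  (qExpansion 1 f).coeff n

/-- `f ∈ S_2(Γ₀(N))` is a newform, with its standard properties: the Fourier coefficients `c(n)` of `f`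
are real with `c(1) = 1`, they satisfy the Hecke relations `c(mn) = c(m) c(n)` for coprime `m`, `n` and
`c(p^(j+2)) = c(p) c(p^(j+1)) - p c(p^j)` (without the last term if `p ∣ N`) and the bounds
`|c(p)| ≤ 2√p` for `p ∤ N`, `|c(p)| ≤ 1` for `p ∣ N`; `f` is an eigenfunction of the Fricke
involution: `f(-1/(Nτ)) = -w N τ² f(τ)` with `w = ±1`. -/
structure IsNewform (N : ℕ) (f : CuspForm (Gamma0 N : Subgroup (GL (Fin 2) ℝ)) 2) : Prop where
  one : coef f 1 = 1
  real : ∀ n, (coef f n).im = 0
  mul : ∀ m n : ℕ, Nat.Coprime m n → coef f (m * n) = coef f m * coef f n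
  pow : ∀ p j : ℕ, p.Prime → coef f (p ^ (j + 2)) = coef f p * coef f (p ^ (j + 1)) -
      (if p ∣ N then 0 else (p : ℂ) * coef f (p ^ j))
  good : ∀ p : ℕ, p.Prime → ¬ p ∣ N → ‖coef f p‖ ≤ 2 * Real.sqrt p
  bad : ∀ p : ℕ, p.Prime → p ∣ N → ‖coef f p‖ ≤ 1
  fricke : ∃ w : ℝ, (w = 1 ∨ w = -1) ∧ ∀ τ τ' : ℍ, (τ' : ℂ) * ((N : ℂ) * (τ : ℂ)) = -1 →
    f τ' = -(w : ℂ) * (N : ℂ) * (τ : ℂ) ^ 2 * f τ

/-- The families `c = (c_q)` of characters `c_q` of the groups `(ℤ/q)ˣ`.  The family with `c_q = 1`
except for the primes `q` of a finite set stands for the Dirichlet character `χ_c = ∏ c_q` of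
squarefree conductor; this is an isomorphism of groups. -/
abbrev Fam : Type := (q : ℕ) → (ZMod q)ˣ →* ℂˣ

open Classical in
/-- The set of the `q` with `c_q ≠ 1` (if it is finite). -/
noncomputable def supp (c : Fam) : Finset ℕ :=
  if h : {q | c q ≠ 1}.Finite then h.toFinset else ∅

/-- The value `χ_c(m)`. -/
noncomputable def value (c : Fam) (m : ℕ) : ℂ :=
  ∏ q ∈ supp c, if h : m.Coprime q then (c q (ZMod.unitOfCoprime m h) : ℂ) else 0

/-- `L(f ⊗ χ_c, 1) ≠ 0`: there is an entire function `G` which for `Re s > 3/2` is the product over the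
primes `p` of `(1 - χ(p) c(p) p^(-s) + χ(p)² p^(1-2s))⁻¹` (without the last term if `p ∣ N`),
`χ = χ_c`, and `G(1) ≠ 0`. -/
def TwistNonvanishing {N : ℕ} (f : CuspForm (Gamma0 N : Subgroup (GL (Fin 2) ℝ)) 2) (c : Fam) :
    Prop :=
  ∃ G : ℂ → ℂ, Differentiable ℂ G ∧
    (∀ s : ℂ, (3 : ℝ) / 2 < s.re → HasProd (fun p : Nat.Primes =>
      (1 - value c p * coef f p * ((p : ℕ) : ℂ) ^ (-s) +
        value c p ^ 2 * (if (p : ℕ) ∣ N then 0 else ((p : ℕ) : ℂ) ^ (1 - 2 * s)))⁻¹) (G s)) ∧
    G 1 ≠ 0

/-- The conductor of `χ_c`. -/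
noncomputable def conductor (c : Fam) : ℕ := ∏ q ∈ supp c, q

open Classical in
/-- The Gaussian period `∑ exp(2 π i u / M)`, `0 ≤ u < M`, `χ_c(u) = 1`, where `M` is the conductor of
`χ_c`.  It generates the cyclic extension of `ℚ` attached to `χ_c` (the subfield of `ℚ(exp(2 π i / M))`
fixed by the kernel of `χ_c`; recall that `M` is squarefree). -/
noncomputable def period (c : Fam) : ℂ :=
  ∑ u ∈ (Finset.range (conductor c)).filter (fun u => value c u = 1),
    Complex.exp (2 * Real.pi * Complex.I / (conductor c : ℕ)) ^ u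

/-- `G` is a finite group of Dirichlet characters of squarefree conductors prime to the levels `N_i`. -/
structure IsBase {m : ℕ} (N : Fin m → ℕ) (G : Subgroup Fam) : Prop where
  finite : (G : Set Fam).Finite
  supp_finite : ∀ c ∈ G, {q | c q ≠ 1}.Finite
  good : ∀ c ∈ G, ∀ q, c q ≠ 1 → q.Prime ∧ ∀ i, ¬ q ∣ N i

/-- `q` is a prime which does not divide the levels `N_i` and the conductors of the characters `ψ ∈ G`,
and `c_i(q) - ψ(q) - ψ(q)⁻¹` is not in the prime ideal `lam` of the ring of all algebraic integers,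
for all `i` and all `ψ ∈ G`. -/
def Admissible {m : ℕ} {N : Fin m → ℕ}
    (f : (i : Fin m) → CuspForm (Gamma0 (N i) : Subgroup (GL (Fin 2) ℝ)) 2) (G : Subgroup Fam)
    (lam : Ideal (integralClosure ℤ ℂ)) (q : ℕ) : Prop :=
  q.Prime ∧ ∀ i, ¬ q ∣ N i ∧ ∀ ψ ∈ G, ψ q = 1 ∧
    ∀ x ∈ lam, (x : ℂ) ≠ coef (f i) q - value ψ q - (value ψ q)⁻¹

/-- `H` is a group of Dirichlet characters of order dividing `l ^ n` and of squarefree conductors
composed of admissible primes. -/
structure IsCharGroup {m : ℕ} {N : Fin m → ℕ}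
    (f : (i : Fin m) → CuspForm (Gamma0 (N i) : Subgroup (GL (Fin 2) ℝ)) 2) (G : Subgroup Fam)
    (lam : Ideal (integralClosure ℤ ℂ)) (l n : ℕ) (H : Subgroup Fam) : Prop where
  pow : ∀ c ∈ H, c ^ (l ^ n) = 1
  finite : ∀ c ∈ H, {q | c q ≠ 1}.Finite
  admissible : ∀ c ∈ H, ∀ q, c q ≠ 1 → Admissible f G lam q

/-- `pw t u n = α ^ n + β ^ n`, where `α`, `β` are the roots of `X² - t X + u`. -/
noncomputable def pw (t u : ℂ) : ℕ → ℂ
  | 0 => 2
  | 1 => t
  | n + 2 => t * pw t u (n + 1) - u * pw t u n

open Classical in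
/-- The Euler factor of `L(f/F, s)` at the finite place `v` of the number field `F`.  If `Nv = p ^ d` with
`p` prime, it is `(1 - (α^d + β^d) (Nv)^(-s) + (Nv)^(1-2s))⁻¹` for `p ∤ N`, where `α`, `β` are the
roots of `X² - c(p) X + p`, and `(1 - c(p)^d (Nv)^(-s))⁻¹` for `p ∣ N`.  (The primes `p ∣ N` will be
unramified in `F`.) -/
noncomputable def factor {F : Type} [Field F] [NumberField F] {N : ℕ}
    (f : CuspForm (Gamma0 N : Subgroup (GL (Fin 2) ℝ)) 2) (s : ℂ) (v : HeightOneSpectrum (𝓞 F)) : ℂ :=
  (1 - pw (coef f (Ideal.absNorm v.asIdeal).minFac)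
        (if (Ideal.absNorm v.asIdeal).minFac ∣ N then 0 else ((Ideal.absNorm v.asIdeal).minFac : ℂ))
        ((Ideal.absNorm v.asIdeal).factorization (Ideal.absNorm v.asIdeal).minFac)
        * ((Ideal.absNorm v.asIdeal : ℕ) : ℂ) ^ (-s)
    + (if (Ideal.absNorm v.asIdeal).minFac ∣ N then (0 : ℂ) else
        ((Ideal.absNorm v.asIdeal : ℕ) : ℂ) ^ (1 - 2 * s)))⁻¹

/-- `L(f/F, s)` is entire and `L(f/F, 1) ≠ 0`, for the number field `F ⊂ ℂ` and the newform `f`: there is
an entire function `G` which for `Re s > 3/2` is the Euler product of `f` over all finite places of `F`,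
and `G(1) ≠ 0`. -/
def NonvanishingOver (F : IntermediateField ℚ ℂ) [NumberField F] {N : ℕ}
    (f : CuspForm (Gamma0 N : Subgroup (GL (Fin 2) ℝ)) 2) : Prop :=
  ∃ G : ℂ → ℂ, Differentiable ℂ G ∧
    (∀ s : ℂ, 3 / 2 < s.re → HasProd (fun v : HeightOneSpectrum (𝓞 F) => factor f s v) (G s)) ∧
    G 1 ≠ 0

theorem pw_eq (t u : ℂ) : ∀ n : ℕ, pw t u n = W165.CE.pw t u n
  | 0 => rfl
  | 1 => rfl
  | n + 2 => by rw [pw, W165.CE.pw, pw_eq t u (n + 1), pw_eq t u n]

theorem factor_eq {F : Type} [Field F] [NumberField F] {N : ℕ}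
    (f : CuspForm (Gamma0 N : Subgroup (GL (Fin 2) ℝ)) 2) (s : ℂ) (v : HeightOneSpectrum (𝓞 F)) :
    factor f s v = Pool.Agent.Q6.NW.fc N (Pool.Agent.Y18.BSD.co f) s v := by
  unfold factor Pool.Agent.Q6.NW.fc
  rw [pw_eq]
  rfl

theorem nonvanishing_of {F : IntermediateField ℚ ℂ} [NumberField F] {N : ℕ}
    {f : CuspForm (Gamma0 N : Subgroup (GL (Fin 2) ℝ)) 2} (h : Pool.Agent.Q6.NW.RZF N F f) :
    NonvanishingOver F f := by
  obtain ⟨G, h1, h2, h3⟩ := h
  refine ⟨G, h1, fun s hs => ?_, h3⟩
  refine (congrArg (fun g => HasProd g (G s)) (funext fun v => ?_)).mp (h2 s hs)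
  exact (factor_eq f s v).symm

theorem ez_eq {N : ℕ} (a : ℕ → ℂ) (z s : ℂ) (p : Nat.Primes) :
    Pool.Agent.Y18.NF.ez N a z s p = (1 - z * a p * ((p : ℕ) : ℂ) ^ (-s) +
      z ^ 2 * (if (p : ℕ) ∣ N then 0 else ((p : ℕ) : ℂ) ^ (1 - 2 * s)))⁻¹ := by
  unfold Pool.Agent.Y18.NF.ez
  have hp0 : ((p : ℕ) : ℂ) ≠ 0 := by exact_mod_cast p.2.ne_zero
  have e : ((p : ℕ) : ℂ) ^ (1 - 2 * s) = (p : ℕ) * (((p : ℕ) : ℂ) ^ (-s)) ^ 2 := by
    rw [show (1 - 2 * s : ℂ) = 1 + ((-s) + (-s)) by ring, Complex.cpow_add _ _ hp0,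
      Complex.cpow_add _ _ hp0, Complex.cpow_one]
    ring
  congr 2
  split_ifs with h
  · rw [zero_mul]
  · rw [e]

theorem twist_iff {N : ℕ} {f : CuspForm (Gamma0 N : Subgroup (GL (Fin 2) ℝ)) 2} {c : Fam} :
    TwistNonvanishing f c ↔ Pool.Agent.Q6.NW.TwNZ f c := by
  have key : ∀ (G : ℂ → ℂ) (s : ℂ), HasProd (fun p : Nat.Primes =>
      (1 - value c p * coef f p * ((p : ℕ) : ℂ) ^ (-s) +
        value c p ^ 2 * (if (p : ℕ) ∣ N then 0 else ((p : ℕ) : ℂ) ^ (1 - 2 * s)))⁻¹) (G s) ↔
      HasProd (fun p : Nat.Primes => Pool.Agent.Y18.NF.ez N (Pool.Agent.Y18.BSD.co f)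
        (Pool.Agent.Y18.LP.cvl c p) s p) (G s) := fun G s =>
    iff_of_eq (congrArg (fun g => HasProd g (G s)) (funext fun p => (ez_eq _ _ s p).symm))
  constructor
  · rintro ⟨G, h1, h2, h3⟩
    exact ⟨G, h1, fun s hs => (key G s).1 (h2 s hs), h3⟩
  · rintro ⟨G, h1, h2, h3⟩
    exact ⟨G, h1, fun s hs => (key G s).2 (h2 s hs), h3⟩

theorem group_of {m : ℕ} {N : Fin m → ℕ}
    {f : (i : Fin m) → CuspForm (Gamma0 (N i) : Subgroup (GL (Fin 2) ℝ)) 2} {G : Subgroup Fam}
    {lam : Ideal (integralClosure ℤ ℂ)} {l n : ℕ} {H : Subgroup Fam}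
    (hH : IsCharGroup f G lam l n H) : Pool.Agent.Q6.NW.HG N f G lam l n H :=
  ⟨hH.pow, hH.finite, fun c hc q hq => hH.admissible c hc q hq⟩

theorem period_eq (c : Fam) : period c = Pool.Agent.Y18.LP.eta c (Complex.exp (2 * Real.pi *
    Complex.I / (Pool.Agent.Y18.BSD.dd (Pool.Agent.Y18.LP.sp c) : ℕ))) := rfl

/-- The tuple `(χ_1, …, χ_r)` of characters is good for the newforms `f_i` and the group `G`: for all
number fields `F ⊂ ℂ` contained in the field generated by the Gaussian periods of all the characters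
`ψ ∏ χ_j ^ (J_j)`, `ψ ∈ G`, and for all `i`, `L(f_i/F, s)` is entire and `L(f_i/F, 1) ≠ 0`. -/
def GoodTuple {m : ℕ} {N : Fin m → ℕ}
    (f : (i : Fin m) → CuspForm (Gamma0 (N i) : Subgroup (GL (Fin 2) ℝ)) 2) (G : Subgroup Fam) {r : ℕ}
    (c : Fin r → Fam) : Prop :=
  ∀ (F : IntermediateField ℚ ℂ) [NumberField F],
    F ≤ IntermediateField.adjoin ℚ {x : ℂ | ∃ ψ ∈ G, ∃ J : Fin r → ℕ,
      x = period (ψ * ∏ j, c j ^ J j)} →
    ∀ i, NonvanishingOver F (f i)

/-- counting: a set such that boundedly many translates cover is large -/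
theorem card_le {G : Type} [Group G] {r B : ℕ} (H : Subgroup G) (hfin : (H : Set G).Finite)
    (K : Finset (Fin r → G)) (hK : K.card ≤ B) (hKH : ∀ k ∈ K, ∀ j, k j ∈ H)
    (P : (Fin r → G) → Prop)
    (hP : ∀ c : Fin r → G, (∀ j, c j ∈ H) → ∃ k ∈ K, P (fun j => c j * k j)) :
    Nat.card H ^ r ≤ B * Nat.card {c : Fin r → H // P (fun j => (c j : G))} := by
  classical
  have : Finite H := hfin
  have e1 : Nat.card H ^ r = Nat.card (Fin r → H) := by
    rw [Nat.card_fun, Nat.card_fin]
  have hch : ∀ c : Fin r → H, ∃ k : Fin r → G, k ∈ K ∧ P (fun j => (c j : G) * k j) := fun c => by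
    obtain ⟨k, h1, h2⟩ := hP (fun j => (c j : G)) (fun j => (c j).2)
    exact ⟨k, h1, h2⟩
  choose k hk1 hk2 using hch
  let φ : (Fin r → H) → K × {c : Fin r → H // P (fun j => (c j : G))} := fun c =>
    (⟨k c, hk1 c⟩, ⟨fun j => c j * ⟨k c j, hKH _ (hk1 c) j⟩, hk2 c⟩)
  have hφ : Function.Injective φ := by
    intro c c' h
    have h1 : k c = k c' := congrArg Subtype.val (congrArg Prod.fst h)
    have h2 : (fun j => c j * ⟨k c j, hKH _ (hk1 c) j⟩ : Fin r → H) =
        fun j => c' j * ⟨k c' j, hKH _ (hk1 c') j⟩ := congrArg Subtype.val (congrArg Prod.snd h)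
    funext j
    have h3 : c j * ⟨k c j, hKH _ (hk1 c) j⟩ = c' j * ⟨k c' j, hKH _ (hk1 c') j⟩ := congrFun h2 j
    have h4 : (⟨k c j, hKH _ (hk1 c) j⟩ : H) = ⟨k c' j, hKH _ (hk1 c') j⟩ :=
      Subtype.ext (congrFun h1 j)
    rw [h4] at h3
    exact mul_right_cancel h3
  have h5 := Nat.card_le_card_of_injective φ hφ
  rw [Nat.card_prod] at h5
  rw [e1]
  refine h5.trans (Nat.mul_le_mul_right _ ?_)
  rw [Nat.card_eq_fintype_card, Fintype.card_coe]
  exact hK

theorem card_le' {r B : ℕ} (H : Subgroup Fam) (hfin : (H : Set Fam).Finite)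
    (K : Finset (Fin r → Fam)) (hK : K.card ≤ B) (hKH : ∀ k ∈ K, ∀ j, k j ∈ H)
    (P : (Fin r → Fam) → Prop)
    (hP : ∀ c : Fin r → Fam, (∀ j, c j ∈ H) → ∃ k ∈ K, P (fun j => c j * k j)) :
    Nat.card H ^ r ≤ B * Nat.card {c : Fin r → H // P (fun j => (c j : Fam))} :=
  card_le (G := Fam) H hfin K hK hKH P hP

/-- **Theorem.** Let `f_1, …, f_m`, `m > 0`, be newforms of weight two, of levels `N_i` and with trivial
character, `G` a finite group of Dirichlet characters of squarefree conductors prime to the `N_i` such that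
`L(f_i ⊗ ψ, 1) ≠ 0` for all `ψ ∈ G` and all `i`.  Let `l` be a prime, `n`, `r` integers and `lam` a prime
ideal of the ring of all algebraic integers which contains `l`.  There is a `V` such that for every group
`H` of Dirichlet characters of order dividing `l ^ n` and of squarefree conductors composed of primes `q`
which do not divide the `N_i` and the conductors of the `ψ ∈ G`, with `a_q(f_i) - ψ(q) - ψ(q)⁻¹ ∉ lam` for
all `i` and all `ψ ∈ G`: every `r`-tuple of elements of `H` becomes good after multiplication by an element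
of a fixed set of at most `2 ^ V` tuples of elements of `H`; if `H` is finite, at least `|H| ^ r / 2 ^ V` of
the `|H| ^ r` tuples are good; and there is a `B` such that for all `X` the number of the tuples of
characters in `H` of conductors `≤ X` is at most `2 ^ V` times the number of the good tuples of characters
in `H` of conductors `≤ B X` (both numbers are finite, by the last assertion). -/
theorem result (m : ℕ) (hm : 0 < m) (N : Fin m → ℕ) (hN : ∀ i, N i ≠ 0)
    (f : (i : Fin m) → CuspForm (Gamma0 (N i) : Subgroup (GL (Fin 2) ℝ)) 2)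
    (hf : ∀ i, IsNewform (N i) (f i)) (G : Subgroup Fam) (hG : IsBase N G)
    (h0 : ∀ ψ ∈ G, ∀ i, TwistNonvanishing (f i) ψ)
    (l n r : ℕ) (hl : l.Prime) (lam : Ideal (integralClosure ℤ ℂ)) (hlam : lam.IsPrime)
    (hll : (l : integralClosure ℤ ℂ) ∈ lam) :
    ∃ V : ℕ, ∀ H : Subgroup Fam, IsCharGroup f G lam l n H →
      (∃ K : Finset (Fin r → Fam), K.card ≤ 2 ^ V ∧ (∀ k ∈ K, ∀ j, k j ∈ H) ∧
        ∀ c : Fin r → Fam, (∀ j, c j ∈ H) → ∃ k ∈ K, GoodTuple f G (fun j => c j * k j)) ∧
      ((H : Set Fam).Finite →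
        Nat.card H ^ r ≤
          2 ^ V * Nat.card {c : Fin r → H // GoodTuple f G (fun j => (c j : Fam))}) ∧
      (∃ B : ℕ, ∀ X : ℕ,
        {c : Fin r → Fam | ∀ j, c j ∈ H ∧ conductor (c j) ≤ X}.ncard ≤
          2 ^ V * {c : Fin r → Fam | (∀ j, c j ∈ H ∧ conductor (c j) ≤ B * X) ∧
            GoodTuple f G c}.ncard) ∧
      (∀ X : ℕ, {c : Fin r → Fam | ∀ j, c j ∈ H ∧ conductor (c j) ≤ X}.Finite) := by
  have : ∀ i, NeZero (N i) := fun i => ⟨hN i⟩
  have : Nonempty (Fin m) := ⟨⟨0, hm⟩⟩
  obtain ⟨V, hV⟩ := Pool.Agent.Q6.NW.tuples_over (ι := Fin m) (N := N) (f := f) (n := n)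
    (fun i => ⟨(hf i).one, (hf i).real, (hf i).mul, (hf i).pow, (hf i).good, (hf i).bad,
      (hf i).fricke⟩) ⟨hG.finite, hG.supp_finite, hG.good⟩
    (fun ψ hψ i => twist_iff.1 (h0 ψ hψ i)) hl hlam hll r
  refine ⟨V, fun H hH => ?_⟩
  obtain ⟨K, h1, h2, h3⟩ := hV H (group_of hH)
  have h4 : ∀ c : Fin r → Fam, (∀ j, c j ∈ H) → ∃ k ∈ K, GoodTuple f G (fun j => c j * k j) := by
    intro c hc
    obtain ⟨k, hk, h⟩ := h3 c hc
    refine ⟨k, hk, ?_⟩
    intro F _ hF i
    simp only [period_eq] at hF
    exact nonvanishing_of (h F hF i)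
  refine ⟨⟨K, h1, h2, h4⟩, fun hfin => card_le' H hfin K h1 h2 (GoodTuple f G) h4, ?_,
    fun X => ?_⟩
  · exact Pool.Agent.Q6.NW.count_cond H hH.finite (fun c hc q hq => (hH.admissible c hc q hq).1) K
      h1 h2 (GoodTuple f G) h4
  · exact Set.Finite.pi' fun _ => Pool.Agent.Q6.NW.fin_cond H hH.finite
      (fun c hc q hq => (hH.admissible c hc q hq).1) X

end Pool.Agent.Results.MP_6e2fc3_nt.ProportionOfBaseChanges
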